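import Pool.Agent.helper36.PT.Spec

/-! # Project PT, row ERR -/

set_option autoImplicit false

namespace Pool.Agent.PT

open Finset Pool.Agent.helper71.AA

theorem ERR_split (X : ℝ) (w p : ℕ) (ξ : Finset ℕ → ℝ) (h : Cof w X p ξ) :
    ∃ ξ₁ ξ₂ : Finset ℕ → ℝ, (∀ D, ξ D = ξ₁ D + ξ₂ D) ∧ Cof w X p ξ₁ ∧ Cof w X p ξ₂ ∧
      (∀ D, ξ₁ D ≠ 0 → ∃ D₁ ⊆ D, pr D₁ ≤ X ^ (0.4451 : ℝ) ∧ pr (D \ D₁) ≤ X ^ (0.108 : ℝ)) ∧
      ∀ D, ξ₂ D ≠ 0 → pr D ≤ X ^ (0.4991 : ℝ) := by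
  classical
  have hX : 0 ≤ X ^ (0.0001 : ℝ) := (abs_nonneg _).trans (h.bd ∅)
  have key : ∀ f : Finset ℕ → ℝ, (∀ D, f D ≠ 0 → f D = ξ D) → Cof w X p f := by
    intro f hf
    have hne : ∀ D, f D ≠ 0 → ξ D ≠ 0 := fun D hD => by rw [← hf D hD]; exact hD
    refine ⟨fun D => ?_, fun D hD => h.pm D (hne D hD), fun D hD => h.le D (hne D hD),
      fun D hD => h.ct D (hne D hD)⟩
    by_cases h0 : f D = 0
    · rw [h0, abs_zero]; exact hX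
    · rw [hf D h0]; exact h.bd D
  refine ⟨fun D => if (∃ D₁ ⊆ D, pr D₁ ≤ X ^ (0.4451 : ℝ) ∧ pr (D \ D₁) ≤ X ^ (0.108 : ℝ))
    then ξ D else 0, fun D => if (∃ D₁ ⊆ D, pr D₁ ≤ X ^ (0.4451 : ℝ) ∧
      pr (D \ D₁) ≤ X ^ (0.108 : ℝ)) then 0 else ξ D, fun D => ?_, key _ fun D hD => ?_,
    key _ fun D hD => ?_, fun D hD => ?_, fun D hD => ?_⟩
  · by_cases hc : ∃ D₁ ⊆ D, pr D₁ ≤ X ^ (0.4451 : ℝ) ∧ pr (D \ D₁) ≤ X ^ (0.108 : ℝ)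
    · simp only [if_pos hc, add_zero]
    · simp only [if_neg hc, zero_add]
  · by_cases hc : ∃ D₁ ⊆ D, pr D₁ ≤ X ^ (0.4451 : ℝ) ∧ pr (D \ D₁) ≤ X ^ (0.108 : ℝ)
    · simp only [if_pos hc]
    · simp only [if_neg hc, ne_eq, not_true_eq_false] at hD
  · by_cases hc : ∃ D₁ ⊆ D, pr D₁ ≤ X ^ (0.4451 : ℝ) ∧ pr (D \ D₁) ≤ X ^ (0.108 : ℝ)
    · simp only [if_pos hc, ne_eq, not_true_eq_false] at hD
    · simp only [if_neg hc]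
  · by_cases hc : ∃ D₁ ⊆ D, pr D₁ ≤ X ^ (0.4451 : ℝ) ∧ pr (D \ D₁) ≤ X ^ (0.108 : ℝ)
    · exact hc
    · simp only [if_neg hc, ne_eq, not_true_eq_false] at hD
  · by_cases hc : ∃ D₁ ⊆ D, pr D₁ ≤ X ^ (0.4451 : ℝ) ∧ pr (D \ D₁) ≤ X ^ (0.108 : ℝ)
    · simp only [if_pos hc, ne_eq, not_true_eq_false] at hD
    · simp only [if_neg hc] at hD
      exact (h.ct D hD).resolve_left hc

theorem ERR_add1 (w : ℕ) (X : ℝ) (Q : Finset ℕ) (p q : ℕ) (ξ ξ₁ ξ₂ ζ : Finset ℕ → ℝ)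
    (c : Finset ℕ → Finset ℕ → ℤ) (h : ∀ D, ξ D = ξ₁ D + ξ₂ D) :
    Er w X Q p q ξ ζ c = Er w X Q p q ξ₁ ζ c + Er w X Q p q ξ₂ ζ c := by
  unfold Er
  rw [← sum_add_distrib]
  refine sum_congr rfl fun D _ => ?_
  rw [← sum_add_distrib]
  refine sum_congr rfl fun E _ => ?_
  split_ifs
  · rw [h D]; push_cast; ring
  · rw [add_zero]

theorem ERR_add2 (w : ℕ) (X : ℝ) (Q : Finset ℕ) (p q : ℕ) (ξ ζ ζ₁ ζ₂ : Finset ℕ → ℝ)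
    (c : Finset ℕ → Finset ℕ → ℤ) (h : ∀ D, ζ D = ζ₁ D + ζ₂ D) :
    Er w X Q p q ξ ζ c = Er w X Q p q ξ ζ₁ c + Er w X Q p q ξ ζ₂ c := by
  unfold Er
  rw [← sum_add_distrib]
  refine sum_congr rfl fun D _ => ?_
  rw [← sum_add_distrib]
  refine sum_congr rfl fun E _ => ?_
  split_ifs
  · rw [h E]; push_cast; ring
  · rw [add_zero]

theorem ERR_Nn (Q : Finset ℕ) (p q : ℕ) : Nn Q q p = Nn Q p q := by
  unfold Nn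
  refine filter_congr fun l _ => ?_
  rw [← dvd_neg, neg_sub]

theorem ERR_swap (w : ℕ) (X : ℝ) (Q : Finset ℕ) (p q : ℕ) (ξ ζ : Finset ℕ → ℝ)
    (c : Finset ℕ → Finset ℕ → ℤ) :
    Er w X Q p q ξ ζ c = Er w X Q q p ζ ξ (fun D E => c E D) := by
  unfold Er
  rw [sum_comm]
  refine sum_congr rfl fun E _ => sum_congr rfl fun D _ => ?_
  rw [ERR_Nn Q p q, inter_comm E D, union_comm E D, mul_comm (ζ E) (ξ D)]

theorem ERR_zero (w : ℕ) (X : ℝ) (hX : 0 < X) (Q : Finset ℕ) (p q : ℕ) (ξ ζ : Finset ℕ → ℝ)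
    (c : Finset ℕ → Finset ℕ → ℤ) (h1 : Cof w X p ξ) (h2 : Cof w X q ζ)
    (h3 : ∀ D, ξ D ≠ 0 → pr D ≤ X ^ (0.4991 : ℝ)) (h4 : ∀ D, ζ D ≠ 0 → pr D ≤ X ^ (0.4991 : ℝ))
    (h5 : (primorial w : ℝ) * X ^ (0.9982 : ℝ) ≤ 2 * X) : Er w X Q p q ξ ζ c = 0 := by
  unfold Er
  refine sum_eq_zero fun D _ => sum_eq_zero fun E _ => ?_
  split_ifs
  · by_cases hD : ξ D = 0
    · rw [hD]; simp
    by_cases hE : ζ E = 0
    · rw [hE]; simp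
    have hDp : ∀ l ∈ D, 1 ≤ l := fun l hl => (h1.pm D hD l hl).1.one_le
    have hEp : ∀ l ∈ E, 1 ≤ l := fun l hl => (h2.pm E hE l hl).1.one_le
    have hpos : 0 < ∏ l ∈ D ∪ E, l := by
      refine prod_pos fun l hl => ?_
      rcases mem_union.1 hl with h | h
      · exact hDp l h
      · exact hEp l h
    have hint : 0 < ∏ l ∈ D ∩ E, l := prod_pos fun l hl => hDp l (mem_inter.1 hl).1
    have hle : ((∏ l ∈ D ∪ E, l : ℕ) : ℝ) ≤ pr D * pr E := by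
      have e : (∏ l ∈ D ∪ E, l) * (∏ l ∈ D ∩ E, l) = (∏ l ∈ D, l) * ∏ l ∈ E, l :=
        prod_union_inter
      have e2 : ∏ l ∈ D ∪ E, l ≤ (∏ l ∈ D, l) * ∏ l ∈ E, l := by
        rw [← e]
        exact Nat.le_mul_of_pos_right _ hint
      have e3 : ((∏ l ∈ D ∪ E, l : ℕ) : ℝ) ≤ (((∏ l ∈ D, l) * ∏ l ∈ E, l : ℕ) : ℝ) := by
        exact_mod_cast e2
      refine e3.trans (le_of_eq ?_)
      unfold pr
      push_cast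
      rfl
    have hm : ((primorial w * ∏ l ∈ D ∪ E, l : ℕ) : ℝ) ≤ 2 * X := by
      refine le_trans ?_ h5
      rw [Nat.cast_mul]
      refine mul_le_mul_of_nonneg_left (hle.trans ?_) (Nat.cast_nonneg _)
      have e4 : X ^ (0.9982 : ℝ) = X ^ (0.4991 : ℝ) * X ^ (0.4991 : ℝ) := by
        rw [← Real.rpow_add hX]; norm_num
      rw [e4]
      refine mul_le_mul (h3 D hD) (h4 E hE) ?_ (Real.rpow_nonneg hX.le _)
      unfold pr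
      exact prod_nonneg fun l _ => Nat.cast_nonneg l
    rw [Fr_zero (2 * X) _ (Nat.mul_pos (primorial_pos w) hpos) (by linarith) hm, mul_zero]
  · rfl

theorem ERR (h1 : ERS_stmt) : ERR_stmt := by
  intro w
  obtain ⟨X₁, hX₁⟩ := h1 w
  have ev := ((tendsto_rpow_atTop (show (0 : ℝ) < 0.0001 by norm_num)).eventually_ge_atTop 2).and
    (((tendsto_rpow_atTop (show (0 : ℝ) < 0.0018 by norm_num)).eventually_ge_atTop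
      (primorial w : ℝ)).and ((Filter.eventually_ge_atTop X₁).and (Filter.eventually_ge_atTop 1)))
  obtain ⟨X₀, hX₀⟩ := Filter.eventually_atTop.1 ev
  refine ⟨X₀, fun X hX p q hp hq hpq hwp hwq hpX hqX a₀ Q ξ ζ hQ hξ hζ c hc => ?_⟩
  obtain ⟨g1, g2, g3, g4⟩ := hX₀ X hX
  have hX0 : 0 < X := by linarith
  obtain ⟨ξ₁, ξ₂, a1, a2, a3, a4, a5⟩ := ERR_split X w p ξ hξ
  obtain ⟨ζ₁, ζ₂, b1, b2, b3, b4, b5⟩ := ERR_split X w q ζ hζ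
  rw [ERR_add1 w X Q p q ξ ξ₁ ξ₂ ζ c a1, ERR_add2 w X Q p q ξ₂ ζ ζ₁ ζ₂ c b1]
  have z : Er w X Q p q ξ₂ ζ₂ c = 0 := by
    refine ERR_zero w X hX0 Q p q ξ₂ ζ₂ c a3 b3 a5 b5 ?_
    have e : X = X ^ (0.0018 : ℝ) * X ^ (0.9982 : ℝ) := by
      rw [← Real.rpow_add hX0]; norm_num
    have e2 : (primorial w : ℝ) * X ^ (0.9982 : ℝ) ≤ X := by
      calc (primorial w : ℝ) * X ^ (0.9982 : ℝ) ≤ X ^ (0.0018 : ℝ) * X ^ (0.9982 : ℝ) :=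
            mul_le_mul_of_nonneg_right g2 (Real.rpow_nonneg hX0.le _)
        _ = X := e.symm
    linarith
  rw [z, add_zero]
  have n1 : ‖Er w X Q p q ξ₁ ζ c‖ ≤ X ^ (0.9997 : ℝ) :=
    hX₁ X g3 p q hp hq hpq hwp hwq hpX hqX a₀ Q ξ₁ ζ hQ a2 hζ a4 c hc
  have n2 : ‖Er w X Q p q ξ₂ ζ₁ c‖ ≤ X ^ (0.9997 : ℝ) := by
    rw [ERR_swap]
    refine hX₁ X g3 q p hq hp hpq.symm hwq hwp hqX hpX a₀ Q ζ₁ ξ₂ hQ b2 a3 b4 _ ?_
    intro D hD E hE hDE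
    rw [ERR_Nn Q p q, inter_comm] at hDE
    obtain ⟨c1, c2, c3⟩ := hc E hE D hD hDE
    exact ⟨c1, c3, c2⟩
  have e5 : X ^ (0.9998 : ℝ) = X ^ (0.0001 : ℝ) * X ^ (0.9997 : ℝ) := by
    rw [← Real.rpow_add hX0]; norm_num
  have e6 : 2 * X ^ (0.9997 : ℝ) ≤ X ^ (0.9998 : ℝ) := by
    rw [e5]
    exact mul_le_mul_of_nonneg_right g1 (Real.rpow_nonneg hX0.le _)
  refine (norm_add_le _ _).trans ?_
  linarith

end Pool.Agent.PT
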