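import Pool.Agent.helper36.PT.Spec

/-! # Project PT, row NUM -/

set_option autoImplicit false

namespace Pool.Agent.PT

open Finset MeasureTheory

theorem NUM_int (a b L c : ℝ) (ha : 0 < a) (hab : a ≤ b) (hb : b < L) (hc : 0 < c) :
    ∫ t in a..b, (1 - t / c) / (L - t) / t =
      ((Real.log b - Real.log (L - b)) / L + Real.log (L - b) / c) -
        ((Real.log a - Real.log (L - a)) / L + Real.log (L - a) / c) := by
  have hL : 0 < L := by linarith
  apply intervalIntegral.integral_eq_sub_of_hasDerivAt
    (f := fun t => (Real.log t - Real.log (L - t)) / L + Real.log (L - t) / c)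
  · intro t ht
    rw [Set.uIcc_of_le hab] at ht
    have h1 : 0 < t := lt_of_lt_of_le ha ht.1
    have h2 : 0 < L - t := by linarith [ht.2]
    have d1 : HasDerivAt (fun t : ℝ => Real.log t) (t⁻¹) t := Real.hasDerivAt_log h1.ne'
    have d2 : HasDerivAt (fun t : ℝ => L - t) (-1) t := by
      simpa using (hasDerivAt_id t).const_sub L
    have d3 : HasDerivAt (fun t : ℝ => Real.log (L - t)) (-1 / (L - t)) t := d2.log h2.ne'
    have d4 := ((d1.sub d3).div_const L).add (d3.div_const c)
    refine d4.congr_deriv ?_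
    field_simp
    ring
  · apply ContinuousOn.intervalIntegrable
    rw [Set.uIcc_of_le hab]
    refine ContinuousOn.div (ContinuousOn.div (by fun_prop) (by fun_prop) ?_) (by fun_prop) ?_
    · intro t ht
      have : 0 < L - t := by linarith [ht.2]
      exact this.ne'
    · intro t ht
      exact (lt_of_lt_of_le ha ht.1).ne'

theorem NUM_nn (a b L c : ℝ) (ha : 0 < a) (hab : a ≤ b) (hb : b < L) (hc : 0 < c) (hbc : b ≤ c) :
    0 ≤ ∫ t in a..b, (1 - t / c) / (L - t) / t := by
  apply intervalIntegral.integral_nonneg hab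
  intro t ht
  have h1 : 0 < t := lt_of_lt_of_le ha ht.1
  have h2 : 0 < L - t := by linarith [ht.2]
  have h3 : 0 ≤ 1 - t / c := by
    rw [sub_nonneg, div_le_one hc]
    exact ht.2.trans hbc
  positivity

theorem NUM : NUM_stmt := by
  have i1 := NUM_int 0.13825 0.445 0.553 0.47 (by norm_num) (by norm_num) (by norm_num) (by norm_num)
  have i2 := NUM_int 0.445 0.47 0.499 0.47 (by norm_num) (by norm_num) (by norm_num) (by norm_num)
  have n1 := NUM_nn 0.13825 0.445 0.553 0.47 (by norm_num) (by norm_num) (by norm_num) (by norm_num)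
    (by norm_num)
  have n2 := NUM_nn 0.445 0.47 0.499 0.47 (by norm_num) (by norm_num) (by norm_num) (by norm_num)
    (by norm_num)
  have e1 : (0.553 : ℝ) - 0.445 = 0.108 := by norm_num
  have e2 : (0.553 : ℝ) - 0.13825 = 0.41475 := by norm_num
  have e3 : (0.499 : ℝ) - 0.47 = 0.029 := by norm_num
  have e4 : (0.499 : ℝ) - 0.445 = 0.054 := by norm_num
  rw [e1, e2] at i1
  rw [e3, e4] at i2
  have l2a := Real.log_two_gt_d9
  have l2b := Real.log_two_lt_d9
  have r4 : Real.log 4 = 2 * Real.log 2 := by
    have : (4 : ℝ) = 2 ^ 2 := by norm_num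
    rw [this, Real.log_pow]; norm_num
  have r8 : Real.log 8 = 3 * Real.log 2 := by
    have : (8 : ℝ) = 2 ^ 3 := by norm_num
    rw [this, Real.log_pow]; norm_num
  -- log 3
  have r3 : 2 * Real.log 3 ≤ 3 * Real.log 2 + 0.125 := by
    have a1 : Real.log (9 : ℝ) = 2 * Real.log 3 := by
      have : (9 : ℝ) = 3 ^ 2 := by norm_num
      rw [this, Real.log_pow]; norm_num
    have a2 : Real.log (9 : ℝ) = Real.log 8 + Real.log (9 / 8) := by
      rw [← Real.log_mul (by norm_num) (by norm_num)]; norm_num
    have a3 := Real.log_le_sub_one_of_pos (show (0 : ℝ) < 9 / 8 by norm_num)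
    linarith
  have r3' : 3 * Real.log 2 ≤ 2 * Real.log 3 := by
    have a1 : Real.log (9 : ℝ) = 2 * Real.log 3 := by
      have : (9 : ℝ) = 3 ^ 2 := by norm_num
      rw [this, Real.log_pow]; norm_num
    have a2 := Real.log_le_log (show (0 : ℝ) < 8 by norm_num) (show (8 : ℝ) ≤ 9 by norm_num)
    linarith
  have u4 : Real.log 0.41475 = Real.log 3 + Real.log 0.13825 := by
    rw [← Real.log_mul (by norm_num) (by norm_num)]; norm_num
  have u1 : Real.log 0.445 - Real.log 0.108 ≤ 2 * Real.log 2 + 13 / 432 := by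
    have a1 : Real.log 0.445 = Real.log 0.108 + (Real.log 4 + Real.log (445 / 432)) := by
      rw [← Real.log_mul (by norm_num) (by norm_num), ← Real.log_mul (by norm_num) (by norm_num)]
      norm_num
    have a3 := Real.log_le_sub_one_of_pos (show (0 : ℝ) < 445 / 432 by norm_num)
    linarith
  have u2 : 2 * Real.log 2 - 0.0416 ≤ Real.log 0.41475 - Real.log 0.108 := by
    have a1 : Real.log 0.41475 = Real.log 0.108 + (Real.log 4 + Real.log (0.41475 / 0.432)) := by
      rw [← Real.log_mul (by norm_num) (by norm_num), ← Real.log_mul (by norm_num) (by norm_num)]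
      norm_num
    have a3 := Real.one_sub_inv_le_log_of_pos (show (0 : ℝ) < 0.41475 / 0.432 by norm_num)
    have a4 : (-0.0416 : ℝ) ≤ 1 - (0.41475 / 0.432 : ℝ)⁻¹ := by norm_num
    linarith
  have u3 : Real.log 0.47 - Real.log 0.445 ≤ 0.05542 := by
    have a1 : Real.log 0.47 = Real.log 0.445 + (Real.log (457.5 / 445) + Real.log (470 / 457.5)) := by
      rw [← Real.log_mul (by norm_num) (by norm_num), ← Real.log_mul (by norm_num) (by norm_num)]
      norm_num
    have a3 := Real.log_le_sub_one_of_pos (show (0 : ℝ) < 457.5 / 445 by norm_num)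
    have a4 := Real.log_le_sub_one_of_pos (show (0 : ℝ) < 470 / 457.5 by norm_num)
    have a5 : (457.5 / 445 - 1 + (470 / 457.5 - 1) : ℝ) ≤ 0.05542 := by norm_num
    linarith
  have u5 : Real.log 2 - 0.0741 ≤ Real.log 0.054 - Real.log 0.029 := by
    have a1 : Real.log 0.054 = Real.log 0.029 + (Real.log 2 + Real.log (27 / 29)) := by
      rw [← Real.log_mul (by norm_num) (by norm_num), ← Real.log_mul (by norm_num) (by norm_num)]
      norm_num
    have a3 := Real.one_sub_inv_le_log_of_pos (show (0 : ℝ) < 27 / 29 by norm_num)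
    have a4 : (-0.0741 : ℝ) ≤ 1 - (27 / 29 : ℝ)⁻¹ := by norm_num
    linarith
  have hJ : JJ = ((Real.log 0.445 - Real.log 0.108) + Real.log 3) / 0.553 -
      (Real.log 0.41475 - Real.log 0.108) / 0.47 +
      ((Real.log 0.47 - Real.log 0.445) + (Real.log 0.054 - Real.log 0.029)) / 0.499 -
      (Real.log 0.054 - Real.log 0.029) / 0.47 := by
    unfold JJ
    rw [i1, i2]
    have h3 : Real.log 3 = Real.log 0.41475 - Real.log 0.13825 := by rw [u4]; ring
    rw [h3]
    ring
  have hnn : 0 ≤ JJ := by unfold JJ; exact add_nonneg n1 n2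
  have hla : lamR = 235 / 204.9 := by unfold lamR; norm_num
  refine ⟨?_, hnn, ?_⟩
  · rw [hJ, hla]
    generalize Real.log 0.445 - Real.log 0.108 = x1 at *
    generalize Real.log 0.41475 - Real.log 0.108 = x2 at *
    generalize Real.log 0.47 - Real.log 0.445 = x3 at *
    generalize Real.log 0.054 - Real.log 0.029 = x4 at *
    generalize Real.log 3 = x5 at *
    generalize Real.log 2 = x6 at *
    norm_num at *
    linarith
  · rw [hJ]
    generalize Real.log 0.445 - Real.log 0.108 = x1 at *
    generalize Real.log 0.41475 - Real.log 0.108 = x2 at *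
    generalize Real.log 0.47 - Real.log 0.445 = x3 at *
    generalize Real.log 0.054 - Real.log 0.029 = x4 at *
    generalize Real.log 3 = x5 at *
    generalize Real.log 2 = x6 at *
    norm_num at *
    linarith

end Pool.Agent.PT
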