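import Pool.Agent.helper36.PT.Spec

/-! # Project PT, rows WTA and WTB -/

set_option autoImplicit false

namespace Pool.Agent.PT

open Finset Pool.Agent.helper71.AA

theorem WTA : WTA_stmt := by
  intro X η z hX hz
  have hsub : Pool.Agent.RLS.PP (X ^ η) z ⊆ Ql X η := by
    intro p hp
    unfold Pool.Agent.RLS.PP at hp
    rw [mem_filter, mem_range] at hp
    unfold Ql Qs
    rw [mem_filter, mem_Ioc]
    refine ⟨⟨?_, ?_⟩, hp.2.1⟩
    · have h1 : ((⌊X ^ η⌋₊ : ℕ) : ℝ) < (p : ℝ) :=
        lt_of_le_of_lt (Nat.floor_le (Real.rpow_nonneg (by linarith) _)) hp.2.2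
      exact_mod_cast h1
    · exact (Nat.lt_succ_iff.1 hp.1).trans (Nat.floor_mono hz)
  refine ⟨hsub, fun l hl hlz => ?_, fun f hf T => ⟨?_, fun hT => ?_⟩⟩
  · unfold Ql Qs at hl
    rw [mem_filter, mem_Ioc] at hl
    unfold Pool.Agent.RLS.PP
    rw [mem_filter, mem_range]
    exact ⟨Nat.lt_succ_iff.2 (Nat.le_floor hlz), hl.2, Nat.lt_of_floor_lt hl.1.1⟩
  · unfold U
    symm
    apply sum_subset (powerset_mono.2 inter_subset_left)
    intro K hK hK2
    by_contra hne
    exact hK2 (mem_powerset.2 (subset_inter (mem_powerset.1 hK) (hf K hne)))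
  · unfold Vx
    symm
    apply sum_subset (powerset_mono.2 hT)
    intro K hK hK2
    by_contra hne
    exact hK2 (mem_powerset.2 (hf K (fun h0 => hne (by rw [h0, zero_div]))))

end Pool.Agent.PT
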