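import Pool.Agent.helper36.PT.Spec

/-! # Project PT, row WTB -/

set_option autoImplicit false

namespace Pool.Agent.PT

open Finset Pool.Agent.helper71.AA

theorem WTB_gen (X η : ℝ) (l : ℕ → Finset ℕ → ℝ) (hX : 1 < X)
    (hl : ∀ q : ℕ, X ^ (0.13825 : ℝ) < (q : ℝ) → (q : ℝ) ≤ X ^ (0.47 : ℝ) → ∀ K, l q K ≠ 0 →
      K ⊆ Pool.Agent.RLS.PP (X ^ η) (X ^ (0.13825 : ℝ)))
    (g : ℕ → ℝ) (T : Finset ℕ) (hT : T ⊆ Ql X η) :
    ∑ K ∈ T.powerset, x3 X l K * ∏ p ∈ K, g p =
      ∑ q ∈ T.filter (fun q : ℕ => X ^ (0.13825 : ℝ) < (q : ℝ)),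
        (1 - Real.log q / (0.47 * Real.log X)) * g q * ∑ K ∈ T.powerset, l q K * ∏ p ∈ K, g p := by
  have hTq : ∀ q ∈ T, q.Prime ∧ (q : ℝ) ≤ X ^ (0.47 : ℝ) := by
    intro q hq
    have h := hT hq
    unfold Ql Qs at h
    rw [mem_filter, mem_Ioc] at h
    exact ⟨h.2, (Nat.cast_le.2 h.1.2).trans (Nat.floor_le (Real.rpow_nonneg (by linarith) _))⟩
  have e1 : ∑ K ∈ T.powerset, x3 X l K * ∏ p ∈ K, g p =
      ∑ K ∈ T.powerset, ∑ q ∈ K.filter (fun q : ℕ => q.Prime ∧ X ^ (0.13825 : ℝ) < (q : ℝ) ∧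
        (q : ℝ) ≤ X ^ (0.47 : ℝ)), (if ∀ l' ∈ K, l' ≤ q then
          (1 - Real.log q / (0.47 * Real.log X)) * l q (K.erase q) else 0) * ∏ p ∈ K, g p := by
    refine sum_congr rfl fun K _ => ?_
    unfold x3
    rw [sum_mul]
  rw [e1]
  rw [sum_comm' (t' := T.filter (fun q : ℕ => X ^ (0.13825 : ℝ) < (q : ℝ)))
    (s' := fun q => T.powerset.filter (fun K => q ∈ K)) (by
      intro K q
      simp only [mem_filter, mem_powerset]
      constructor
      · rintro ⟨a, b, c, d, e⟩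
        exact ⟨⟨a, b⟩, a b, d⟩
      · rintro ⟨⟨a, b⟩, c, d⟩
        exact ⟨a, b, (hTq q c).1, d, (hTq q c).2⟩)]
  refine sum_congr rfl fun q hq => ?_
  rw [mem_filter] at hq
  obtain ⟨hqT, hq1⟩ := hq
  have hq2 := (hTq q hqT).2
  have hlt : ∀ K, l q K ≠ 0 → ∀ x ∈ K, x < q := by
    intro K hK x hx
    have h := hl q hq1 hq2 K hK hx
    unfold Pool.Agent.RLS.PP at h
    rw [mem_filter, mem_range] at h
    have h1 : (x : ℝ) ≤ X ^ (0.13825 : ℝ) :=
      (Nat.cast_le.2 (Nat.lt_succ_iff.1 h.1)).trans (Nat.floor_le (Real.rpow_nonneg (by linarith) _))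
    exact_mod_cast lt_of_le_of_lt h1 hq1
  have e2 : ∑ K ∈ T.powerset.filter (fun K => q ∈ K), (if ∀ l' ∈ K, l' ≤ q then
          (1 - Real.log q / (0.47 * Real.log X)) * l q (K.erase q) else 0) * ∏ p ∈ K, g p
      = ∑ K ∈ (T.erase q).powerset, (1 - Real.log q / (0.47 * Real.log X)) * g q *
          (l q K * ∏ p ∈ K, g p) := by
    refine sum_bij' (fun K _ => K.erase q) (fun K _ => insert q K) ?_ ?_ ?_ ?_ ?_
    · intro K hK
      rw [mem_filter, mem_powerset] at hK
      rw [mem_powerset]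
      exact erase_subset_erase q hK.1
    · intro K hK
      rw [mem_powerset] at hK
      rw [mem_filter, mem_powerset]
      exact ⟨insert_subset hqT (hK.trans (erase_subset _ _)), mem_insert_self _ _⟩
    · intro K hK
      rw [mem_filter] at hK
      exact insert_erase hK.2
    · intro K hK
      rw [mem_powerset] at hK
      exact erase_insert fun h => (mem_erase.1 (hK h)).1 rfl
    · intro K hK
      rw [mem_filter] at hK
      show _ = (1 - Real.log q / (0.47 * Real.log X)) * g q *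
          (l q (K.erase q) * ∏ p ∈ K.erase q, g p)
      rw [← mul_prod_erase _ _ hK.2]
      by_cases h0 : l q (K.erase q) = 0
      · rw [h0, mul_zero, ite_self]
        ring
      · rw [if_pos]
        · ring
        · intro l' hl'
          rcases eq_or_ne l' q with h | h
          · exact h.le
          · exact (hlt _ h0 l' (mem_erase.2 ⟨h, hl'⟩)).le
  rw [e2, ← mul_sum]
  congr 1
  apply sum_subset (powerset_mono.2 (erase_subset _ _))
  intro K hK hK2
  by_contra hne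
  have hne' : l q K ≠ 0 := fun h => hne (by rw [h, zero_mul])
  apply hK2
  rw [mem_powerset] at hK ⊢
  intro x hx
  exact mem_erase.2 ⟨(hlt K hne' x hx).ne, hK hx⟩

theorem WTB : WTB_stmt := by
  intro X η l hX _ _ hl
  refine ⟨fun T hT => ?_, ?_⟩
  · have h := WTB_gen X η l hX hl (fun _ => 1) T hT
    simp only [prod_const_one, mul_one] at h
    exact h
  · have h := WTB_gen X η l hX hl (fun p => (p : ℝ)⁻¹) (Ql X η) (subset_refl _)
    have e : ∀ f : Finset ℕ → ℝ, Vx (Ql X η) f = ∑ K ∈ (Ql X η).powerset, f K * ∏ p ∈ K, (p : ℝ)⁻¹ := by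
      intro f
      unfold Vx pr
      refine sum_congr rfl fun K _ => ?_
      rw [prod_inv_distrib, div_eq_mul_inv]
    rw [e, h]
    refine sum_congr rfl fun q _ => ?_
    rw [e]
    ring

end Pool.Agent.PT
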