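import Pool.Agent.helper36.PT.Spec
import Pool.Agent.helper31.RLS.All

/-! # Project PT, row WTS: the three weights -/

set_option autoImplicit false

namespace Pool.Agent.PT

open Finset Pool.Agent.helper71.AA

/-- nonnegativity of the main term -/
theorem WTS_nn (Q : Finset ℕ) (hQ : ∀ l ∈ Q, 2 ≤ l) (ξ : Finset ℕ → ℝ) (h : ∀ T ⊆ Q, 0 ≤ U ξ T) :
    0 ≤ Vx Q ξ := by
  have hR : Rep Q (U ξ) ξ := fun A _ => rfl
  have h1 := Rep_Ex Q hQ (U ξ) ξ hR ∅ (empty_subset _)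
  have h2 : ∑ D ∈ Q.powerset, ξ D / pr (D ∪ ∅) = Vx Q ξ := by
    unfold Vx
    refine sum_congr rfl fun D _ => ?_
    rw [union_empty]
  rw [← h2, ← h1]
  refine Ex_nonneg Q hQ _ fun A hA => ?_
  rw [if_pos (empty_subset _)]
  exact h A hA

theorem WTS_Vsub (Q : Finset ℕ) (f g : Finset ℕ → ℝ) : Vx Q (fun K => f K - g K) = Vx Q f - Vx Q g := by
  unfold Vx
  rw [← sum_sub_distrib]
  refine sum_congr rfl fun K _ => ?_
  rw [sub_div]

theorem WTS_Usub (T : Finset ℕ) (f g : Finset ℕ → ℝ) : U (fun K => f K - g K) T = U f T - U g T := by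
  unfold U
  rw [← sum_sub_distrib]

theorem WTS_PPmono (w z z' : ℝ) (h : z' ≤ z) : Pool.Agent.RLS.PP w z' ⊆ Pool.Agent.RLS.PP w z := by
  intro p hp
  unfold Pool.Agent.RLS.PP at hp ⊢
  rw [mem_filter, mem_range] at hp ⊢
  exact ⟨lt_of_lt_of_le hp.1 (Nat.succ_le_succ (Nat.floor_mono h)), hp.2⟩

theorem WTS_PP2 (w z : ℝ) (p : ℕ) (h : p ∈ Pool.Agent.RLS.PP w z) : p.Prime := by
  unfold Pool.Agent.RLS.PP at h
  exact (mem_filter.1 h).2.1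

theorem WTS_PPle (w z : ℝ) (hz : 0 ≤ z) (p : ℕ) (h : p ∈ Pool.Agent.RLS.PP w z) : (p : ℝ) ≤ z := by
  unfold Pool.Agent.RLS.PP at h
  rw [mem_filter, mem_range] at h
  have h1 : p ≤ ⌊z⌋₊ := Nat.lt_succ_iff.1 h.1
  exact (Nat.cast_le.2 h1).trans (Nat.floor_le hz)

/-- from the cutting property: the product is at most the level -/
theorem WTS_cutle (D : ℝ) (hD : 1 ≤ D) (K : Finset ℕ) (hK : ∀ l ∈ K, 2 ≤ l) (h : Pool.Agent.RLS.Cut D K) :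
    pr K ≤ D := by
  obtain ⟨K₁, h1, h2, h3⟩ := h D 1 hD le_rfl (mul_one D)
  have h4 : K \ K₁ = ∅ := by
    by_contra hne
    obtain ⟨x, hx⟩ := nonempty_iff_ne_empty.2 hne
    have h5 : (2 : ℝ) ≤ ∏ p ∈ K \ K₁, (p : ℝ) := by
      rw [← mul_prod_erase _ _ hx]
      have hx2 : (2 : ℝ) ≤ (x : ℝ) := by exact_mod_cast hK x (mem_sdiff.1 hx).1
      have h6 : (1 : ℝ) ≤ ∏ p ∈ (K \ K₁).erase x, (p : ℝ) := by
        rw [← Nat.cast_prod]
        have h7 : 0 < ∏ p ∈ (K \ K₁).erase x, p := by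
          refine prod_pos fun i hi => ?_
          have := hK i (mem_sdiff.1 (mem_of_mem_erase hi)).1
          omega
        exact_mod_cast h7
      nlinarith
    linarith
  have h7 : K₁ = K := Subset.antisymm h1 (sdiff_eq_empty_iff_subset.1 h4)
  rw [h7] at h2
  exact h2

/-- the cutting property for the level `D = R S` -/
theorem WTS_cutRS (D R S : ℝ) (hR : 1 ≤ R) (hS : 1 ≤ S) (hRS : R * S = D) (K : Finset ℕ)
    (h : Pool.Agent.RLS.Cut D K) : ∃ K₁ ⊆ K, pr K₁ ≤ R ∧ pr (K \ K₁) ≤ S := h R S hR hS hRS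

theorem WTS_pr_insert (q : ℕ) (K : Finset ℕ) (h : q ∉ K) : pr (insert q K) = q * pr K := by
  unfold pr
  rw [prod_insert h]

theorem WTS_pr_erase (q : ℕ) (K : Finset ℕ) (h : q ∈ K) : pr K = q * pr (K.erase q) := by
  unfold pr
  rw [mul_prod_erase _ _ h]

/-- the structure of `x3` -/
theorem WTS_x3 (X : ℝ) (l : ℕ → Finset ℕ → ℝ) (K : Finset ℕ) (h : x3 X l K ≠ 0) :
    ∃ q ∈ K, q.Prime ∧ X ^ (0.13825 : ℝ) < (q : ℝ) ∧ (q : ℝ) ≤ X ^ (0.47 : ℝ) ∧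
      x3 X l K = (1 - Real.log q / (0.47 * Real.log X)) * l q (K.erase q) := by
  unfold x3 at h
  obtain ⟨q, hq, hne⟩ := exists_ne_zero_of_sum_ne_zero h
  rw [mem_filter] at hq
  have hmax : ∀ l' ∈ K, l' ≤ q := by
    by_contra hc
    rw [if_neg hc] at hne
    exact hne rfl
  refine ⟨q, hq.1, hq.2.1, hq.2.2.1, hq.2.2.2, ?_⟩
  unfold x3
  rw [sum_eq_single q, if_pos hmax]
  · intro b hb hbq
    rw [mem_filter] at hb
    rw [if_neg]
    intro hb2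
    exact hbq (le_antisymm (hmax b hb.1) (hb2 q hq.1))
  · intro hn
    exact absurd (mem_filter.2 hq) hn

theorem WTS_w01 (X : ℝ) (hX : 1 < X) (q : ℕ) (hq1 : 1 ≤ q) (hq : (q : ℝ) ≤ X ^ (0.47 : ℝ)) :
    0 ≤ 1 - Real.log q / (0.47 * Real.log X) ∧ 1 - Real.log q / (0.47 * Real.log X) ≤ 1 := by
  have hlX : 0 < Real.log X := Real.log_pos hX
  have hq0 : (1 : ℝ) ≤ (q : ℝ) := by exact_mod_cast hq1
  have h1 : 0 ≤ Real.log q := Real.log_nonneg hq0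
  have h2 : Real.log q ≤ 0.47 * Real.log X := by
    have h3 := Real.log_le_log (by linarith) hq
    rwa [Real.log_rpow (by linarith)] at h3
  constructor
  · rw [sub_nonneg, div_le_one (by positivity)]
    exact h2
  · have : 0 ≤ Real.log q / (0.47 * Real.log X) := by positivity
    linarith

/-- upper bound weights of the level `D`, supported on the primes up to `z` -/
structure WTS_Up (X η A e D z : ℝ) (l : Finset ℕ → ℝ) : Prop where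
  bd : ∀ K, |l K| ≤ 1
  one : l ∅ = 1
  su : ∀ K, l K ≠ 0 → K ⊆ Pool.Agent.RLS.PP (X ^ η) z
  cut : ∀ K, l K ≠ 0 → Pool.Agent.RLS.Cut D K
  nn : ∀ T ⊆ Pool.Agent.RLS.PP (X ^ η) z, 0 ≤ ∑ K ∈ T.powerset, l K
  mt : ∑ K ∈ (Pool.Agent.RLS.PP (X ^ η) z).powerset, l K / pr K ≤
    A * (Real.log (X ^ η) / Real.log D) * (1 + e)

theorem WTS_Up_U (X η A e D z : ℝ) (l : Finset ℕ → ℝ) (h : WTS_Up X η A e D z l) (h3 : WTA_stmt)
    (hX : 1 ≤ X) (hz : z ≤ X ^ (0.47 : ℝ)) (T : Finset ℕ) :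
    0 ≤ U l T ∧ (T ∩ Pool.Agent.RLS.PP (X ^ η) z = ∅ → U l T = 1) := by
  obtain ⟨-, -, hA⟩ := h3 X η z hX hz
  obtain ⟨h1, -⟩ := hA l h.su T
  rw [h1]
  refine ⟨h.nn _ inter_subset_right, fun h2 => ?_⟩
  rw [h2, powerset_empty, sum_singleton, h.one]

theorem WTS_Up_V (X η A e D z : ℝ) (l : Finset ℕ → ℝ) (h : WTS_Up X η A e D z l) (h3 : WTA_stmt)
    (hX : 1 ≤ X) (hz : z ≤ X ^ (0.47 : ℝ)) :
    Vx (Ql X η) l ≤ A * (Real.log (X ^ η) / Real.log D) * (1 + e) := by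
  obtain ⟨hs, -, hA⟩ := h3 X η z hX hz
  obtain ⟨-, h1⟩ := hA l h.su (Ql X η)
  rw [h1 hs]
  exact h.mt

theorem WTS_Ql2 (X η : ℝ) (l : ℕ) (h : l ∈ Ql X η) : l.Prime := by
  unfold Ql Qs at h
  exact (mem_filter.1 h).2

theorem WTS_Qlle (X η : ℝ) (hX : 0 ≤ X) (l : ℕ) (h : l ∈ Ql X η) : (l : ℝ) ≤ X ^ (0.47 : ℝ) := by
  unfold Ql Qs at h
  have h1 := (mem_Ioc.1 (mem_filter.1 h).1).2
  exact (Nat.cast_le.2 h1).trans (Nat.floor_le (Real.rpow_nonneg hX _))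

theorem WTS_Qlmem (X η : ℝ) (hη : η ≤ 0.13825) (hX : 1 ≤ X) (q : ℕ) (hp : q.Prime)
    (h1 : X ^ (0.13825 : ℝ) < (q : ℝ)) (h2 : (q : ℝ) ≤ X ^ (0.47 : ℝ)) : q ∈ Ql X η := by
  unfold Ql Qs
  rw [mem_filter, mem_Ioc]
  refine ⟨⟨?_, Nat.le_floor h2⟩, hp⟩
  have h3 : X ^ η ≤ X ^ (0.13825 : ℝ) := Real.rpow_le_rpow_of_exponent_le hX hη
  have h4 : ((⌊X ^ η⌋₊ : ℕ) : ℝ) < (q : ℝ) :=
    lt_of_le_of_lt (Nat.floor_le (Real.rpow_nonneg (by linarith) _)) (lt_of_le_of_lt h3 h1)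
  exact_mod_cast h4

/-- lower bound weights of the level `D`, supported on the primes up to `z` -/
structure WTS_Lo (X η A e D z : ℝ) (l : Finset ℕ → ℝ) : Prop where
  bd : ∀ K, |l K| ≤ 1
  one : l ∅ = 1
  su : ∀ K, l K ≠ 0 → K ⊆ Pool.Agent.RLS.PP (X ^ η) z
  cut : ∀ K, l K ≠ 0 → Pool.Agent.RLS.Cut D K
  np : ∀ T ⊆ Pool.Agent.RLS.PP (X ^ η) z, ∑ K ∈ T.powerset, l K ≤ if T = ∅ then 1 else 0
  mt : A * (Real.log (X ^ η) / Real.log D) * (Real.log 3 - e) ≤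
    ∑ K ∈ (Pool.Agent.RLS.PP (X ^ η) z).powerset, l K / pr K

theorem WTS_Lo_U (X η A e D z : ℝ) (l : Finset ℕ → ℝ) (h : WTS_Lo X η A e D z l) (h3 : WTA_stmt)
    (hX : 1 ≤ X) (hz : z ≤ X ^ (0.47 : ℝ)) (T : Finset ℕ) :
    U l T ≤ if T ∩ Pool.Agent.RLS.PP (X ^ η) z = ∅ then 1 else 0 := by
  obtain ⟨-, -, hA⟩ := h3 X η z hX hz
  obtain ⟨h1, -⟩ := hA l h.su T
  rw [h1]
  exact h.np _ inter_subset_right

theorem WTS_Lo_V (X η A e D z : ℝ) (l : Finset ℕ → ℝ) (h : WTS_Lo X η A e D z l) (h3 : WTA_stmt)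
    (hX : 1 ≤ X) (hz : z ≤ X ^ (0.47 : ℝ)) :
    A * (Real.log (X ^ η) / Real.log D) * (Real.log 3 - e) ≤ Vx (Ql X η) l := by
  obtain ⟨hs, -, hA⟩ := h3 X η z hX hz
  obtain ⟨-, h1⟩ := hA l h.su (Ql X η)
  rw [h1 hs]
  exact h.mt

/-- the weights from the linear sieve -/
theorem WTS_wts (η : ℝ) (hη : 0 < η) (hη' : η ≤ 0.007) : ∃ A : ℝ, 3 ≤ A ∧ A ≤ 4 ∧ ∀ e : ℝ, 0 < e →
    ∃ X₀ : ℝ, 2 ≤ X₀ ∧ ∀ X : ℝ, X₀ ≤ X → ∀ D : ℝ, X ^ (0.029 : ℝ) ≤ D → D ≤ X ^ (0.553 : ℝ) →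
    (∃ l, WTS_Up X η A e D (D ^ (1 / 3 : ℝ)) l) ∧ ∃ l, WTS_Lo X η A e D (D ^ (1 / 4 : ℝ)) l := by
  have hu : (4 : ℝ) ≤ 0.553 / η := by
    rw [le_div_iff₀ hη]
    linarith
  obtain ⟨A, hA1, hA2, hA⟩ := Pool.Agent.RLS.FIN_all (0.553 / η) hu
  refine ⟨A, hA1, hA2, fun e he => ?_⟩
  obtain ⟨w₀, hw₀, hw⟩ := hA e he
  refine ⟨max 2 (w₀ ^ (1 / η)), le_max_left _ _, fun X hX D hD1 hD2 => ?_⟩
  have hX2 : 2 ≤ X := (le_max_left _ _).trans hX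
  have hX0 : 0 < X := by linarith
  have hw1 : w₀ ≤ X ^ η := by
    have h1 : w₀ ^ (1 / η) ≤ X := (le_max_right _ _).trans hX
    have h2 := Real.rpow_le_rpow (by positivity) h1 hη.le
    rwa [← Real.rpow_mul (by linarith), one_div, inv_mul_cancel₀ hη.ne', Real.rpow_one] at h2
  have hw2 : (X ^ η) ^ (4 : ℝ) ≤ D := by
    refine le_trans ?_ hD1
    rw [← Real.rpow_mul hX0.le]
    exact Real.rpow_le_rpow_of_exponent_le (by linarith) (by linarith)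
  have hw3 : D ≤ (X ^ η) ^ (0.553 / η) := by
    rw [← Real.rpow_mul hX0.le, mul_div_cancel₀ _ hη.ne']
    exact hD2
  obtain ⟨⟨l, a1, a2, a3, a4, a5⟩, ⟨l', b1, b2, b3, b4, b5⟩⟩ := hw (X ^ η) D hw1 hw2 hw3
  exact ⟨⟨l, a1, a2, fun K hK => (a3 K hK).1, fun K hK => (a3 K hK).2, fun T hT => (a4 T hT).1, a5⟩,
    ⟨l', b1, b2, fun K hK => (b3 K hK).1, fun K hK => (b3 K hK).2, b4, b5⟩⟩

/-- the levels -/
theorem WTS_Dq (X : ℝ) (hX : 1 < X) (q : ℕ) (h1 : X ^ (0.13825 : ℝ) < (q : ℝ))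
    (h2 : (q : ℝ) ≤ X ^ (0.47 : ℝ)) : X ^ (0.029 : ℝ) ≤ Dq X q ∧ Dq X q ≤ X ^ (0.41475 : ℝ) := by
  have hX0 : 0 < X := by linarith
  have hq0 : (0 : ℝ) < (q : ℝ) := lt_trans (Real.rpow_pos_of_pos hX0 _) h1
  unfold Dq
  split_ifs with h
  · constructor
    · rw [le_div_iff₀ hq0]
      calc X ^ (0.029 : ℝ) * (q : ℝ) ≤ X ^ (0.029 : ℝ) * X ^ (0.445 : ℝ) :=
            mul_le_mul_of_nonneg_left h (Real.rpow_nonneg hX0.le _)
        _ = X ^ (0.029 + 0.445 : ℝ) := (Real.rpow_add hX0 _ _).symm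
        _ ≤ X ^ (0.553 : ℝ) := Real.rpow_le_rpow_of_exponent_le hX.le (by norm_num)
    · rw [div_le_iff₀ hq0]
      calc X ^ (0.553 : ℝ) = X ^ (0.41475 + 0.13825 : ℝ) := by norm_num
        _ = X ^ (0.41475 : ℝ) * X ^ (0.13825 : ℝ) := Real.rpow_add hX0 _ _
        _ ≤ X ^ (0.41475 : ℝ) * (q : ℝ) :=
          mul_le_mul_of_nonneg_left h1.le (Real.rpow_nonneg hX0.le _)
  · push Not at h
    constructor
    · rw [le_div_iff₀ hq0]
      calc X ^ (0.029 : ℝ) * (q : ℝ) ≤ X ^ (0.029 : ℝ) * X ^ (0.47 : ℝ) :=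
            mul_le_mul_of_nonneg_left h2 (Real.rpow_nonneg hX0.le _)
        _ = X ^ (0.029 + 0.47 : ℝ) := (Real.rpow_add hX0 _ _).symm
        _ = X ^ (0.499 : ℝ) := by norm_num
    · rw [div_le_iff₀ hq0]
      calc X ^ (0.499 : ℝ) ≤ X ^ (0.41475 + 0.445 : ℝ) :=
            Real.rpow_le_rpow_of_exponent_le hX.le (by norm_num)
        _ = X ^ (0.41475 : ℝ) * X ^ (0.445 : ℝ) := Real.rpow_add hX0 _ _
        _ ≤ X ^ (0.41475 : ℝ) * (q : ℝ) :=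
          mul_le_mul_of_nonneg_left h.le (Real.rpow_nonneg hX0.le _)

theorem WTS_one (X η : ℝ) (hX : 1 < X) (h3 : WTA_stmt) (A e : ℝ) (l₁ : Finset ℕ → ℝ)
    (h1 : WTS_Up X η A e (X ^ (0.41475 : ℝ)) (X ^ (0.13825 : ℝ)) l₁) (K : Finset ℕ) (hK : l₁ K ≠ 0) :
    K ⊆ Ql X η ∧ pr K ≤ X ^ (0.41475 : ℝ) := by
  obtain ⟨hs, -, -⟩ := h3 X η (X ^ (0.13825 : ℝ)) hX.le
    (Real.rpow_le_rpow_of_exponent_le hX.le (by norm_num))
  refine ⟨(h1.su K hK).trans hs, ?_⟩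
  refine WTS_cutle _ (Real.one_le_rpow hX.le (by norm_num)) K (fun l hl => ?_) (h1.cut K hK)
  exact (WTS_PP2 _ _ _ (h1.su K hK hl)).two_le

theorem WTS_zero (X η : ℝ) (hX : 1 < X) (h3 : WTA_stmt) (A e : ℝ) (l₀ : Finset ℕ → ℝ)
    (h1 : WTS_Lo X η A e (X ^ (0.553 : ℝ)) (X ^ (0.13825 : ℝ)) l₀) (K : Finset ℕ) (hK : l₀ K ≠ 0) :
    (K ⊆ Ql X η ∧ pr K ≤ X ^ (0.553 : ℝ)) ∧
      ∃ K₁ ⊆ K, pr K₁ ≤ X ^ (0.445 : ℝ) ∧ pr (K \ K₁) ≤ X ^ (0.108 : ℝ) := by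
  obtain ⟨hs, -, -⟩ := h3 X η (X ^ (0.13825 : ℝ)) hX.le
    (Real.rpow_le_rpow_of_exponent_le hX.le (by norm_num))
  refine ⟨⟨(h1.su K hK).trans hs, ?_⟩, ?_⟩
  · refine WTS_cutle _ (Real.one_le_rpow hX.le (by norm_num)) K (fun l hl => ?_) (h1.cut K hK)
    exact (WTS_PP2 _ _ _ (h1.su K hK hl)).two_le
  · refine WTS_cutRS _ _ _ (Real.one_le_rpow hX.le (by norm_num)) (Real.one_le_rpow hX.le (by norm_num))
      ?_ K (h1.cut K hK)
    rw [← Real.rpow_add (by linarith)]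
    norm_num

theorem WTS_three (X η : ℝ) (hX : 1 < X) (hη : η ≤ 0.007) (h3 : WTA_stmt) (A e : ℝ)
    (l : ℕ → Finset ℕ → ℝ)
    (h1 : ∀ q : ℕ, X ^ (0.13825 : ℝ) < (q : ℝ) → (q : ℝ) ≤ X ^ (0.47 : ℝ) →
      WTS_Up X η A e (Dq X q) ((Dq X q) ^ (1 / 3 : ℝ)) (l q))
    (hz : ∀ q : ℕ, X ^ (0.13825 : ℝ) < (q : ℝ) → (q : ℝ) ≤ X ^ (0.47 : ℝ) →
      (Dq X q) ^ (1 / 3 : ℝ) ≤ X ^ (0.13825 : ℝ)) (K : Finset ℕ) (hK : x3 X l K ≠ 0) :
    |x3 X l K| ≤ 2 ∧ (K ⊆ Ql X η ∧ pr K ≤ X ^ (0.553 : ℝ)) ∧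
      ((∃ K₁ ⊆ K, pr K₁ ≤ X ^ (0.445 : ℝ) ∧ pr (K \ K₁) ≤ X ^ (0.108 : ℝ)) ∨
        pr K ≤ X ^ (0.499 : ℝ)) := by
  have hX0 : 0 < X := by linarith
  obtain ⟨q, hqK, hqp, hq1, hq2, hx⟩ := WTS_x3 X l K hK
  have hq0 : (0 : ℝ) < (q : ℝ) := lt_trans (Real.rpow_pos_of_pos hX0 _) hq1
  have hl := h1 q hq1 hq2
  have hne : l q (K.erase q) ≠ 0 := fun h0 => hK (by rw [hx, h0, mul_zero])
  have hsu := hl.su _ hne
  have hcut := hl.cut _ hne
  obtain ⟨hw0, hw1⟩ := WTS_w01 X hX q hqp.one_le hq2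
  obtain ⟨hs, -, -⟩ := h3 X η (X ^ (0.13825 : ℝ)) hX.le
    (Real.rpow_le_rpow_of_exponent_le hX.le (by norm_num))
  have hD := WTS_Dq X hX q hq1 hq2
  have hD1 : 1 ≤ Dq X q := (Real.one_le_rpow hX.le (by norm_num)).trans hD.1
  have h2 : ∀ l' ∈ K.erase q, 2 ≤ l' := fun l' hl' => (WTS_PP2 _ _ _ (hsu hl')).two_le
  have hpr : pr (K.erase q) ≤ Dq X q := WTS_cutle _ hD1 _ h2 hcut
  have hprK : pr K = q * pr (K.erase q) := WTS_pr_erase q K hqK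
  refine ⟨?_, ⟨?_, ?_⟩, ?_⟩
  · rw [hx, abs_mul, abs_of_nonneg hw0]
    have := hl.bd (K.erase q)
    nlinarith [abs_nonneg (l q (K.erase q))]
  · intro l' hl'
    rcases eq_or_ne l' q with h | h
    · rw [h]
      exact WTS_Qlmem X η (by linarith) hX.le q hqp hq1 hq2
    · exact hs (WTS_PPmono _ _ _ (hz q hq1 hq2) (hsu (mem_erase.2 ⟨h, hl'⟩)))
  · rw [hprK]
    have h4 : (q : ℝ) * pr (K.erase q) ≤ q * Dq X q := mul_le_mul_of_nonneg_left hpr hq0.le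
    refine h4.trans ?_
    unfold Dq
    split_ifs
    · rw [mul_div_cancel₀ _ hq0.ne']
    · rw [mul_div_cancel₀ _ hq0.ne']
      exact Real.rpow_le_rpow_of_exponent_le hX.le (by norm_num)
  · by_cases h : (q : ℝ) ≤ X ^ (0.445 : ℝ)
    · left
      have hDe : Dq X q = X ^ (0.553 : ℝ) / q := by unfold Dq; rw [if_pos h]
      rw [hDe] at hcut
      obtain ⟨K₁, hK1, hK2, hK3⟩ := WTS_cutRS _ (X ^ (0.445 : ℝ) / q) (X ^ (0.108 : ℝ))
        (by rw [le_div_iff₀ hq0, one_mul]; exact h) (Real.one_le_rpow hX.le (by norm_num))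
        (by
          rw [div_mul_eq_mul_div, ← Real.rpow_add hX0]
          norm_num) _ hcut
      have hqn : q ∉ K₁ := fun hq => (mem_erase.1 (hK1 hq)).1 rfl
      refine ⟨insert q K₁, ?_, ?_, ?_⟩
      · intro x hx
        rcases mem_insert.1 hx with h5 | h5
        · rw [h5]; exact hqK
        · exact mem_of_mem_erase (hK1 h5)
      · rw [WTS_pr_insert q K₁ hqn]
        rw [le_div_iff₀ hq0] at hK2
        linarith
      · have h6 : K \ insert q K₁ = (K.erase q) \ K₁ := by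
          ext x
          simp only [mem_sdiff, mem_insert, mem_erase]
          tauto
        rw [h6]
        exact hK3
    · right
      have hDe : Dq X q = X ^ (0.499 : ℝ) / q := by unfold Dq; rw [if_neg h]
      rw [hprK]
      have h4 : (q : ℝ) * pr (K.erase q) ≤ q * Dq X q := mul_le_mul_of_nonneg_left hpr hq0.le
      refine h4.trans (le_of_eq ?_)
      rw [hDe, mul_div_cancel₀ _ hq0.ne']

theorem WTS_lamR : 0 < lamR ∧ lamR ≤ 1.15 := by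
  unfold lamR
  constructor
  · norm_num
  · norm_num

/-- the numerical inequality -/
theorem WTS_num (h2 : NUM_stmt) : (0.009 : ℝ) ≤ (Real.log 3 - 1 / 10000) / 0.553 -
    lamR * ((1 + 1 / 10000) * (JJ + 1 / 10000)) := by
  obtain ⟨a, b, c⟩ := h2
  obtain ⟨d, f⟩ := WTS_lamR
  have h1 : lamR * (1 / 10000 * JJ + 1 / 10000 + 1 / 10000 * (1 / 10000)) ≤
      1.15 * (1 / 10000 * 2 + 1 / 10000 + 1 / 10000 * (1 / 10000)) :=
    mul_le_mul f (by linarith) (by positivity) (by norm_num)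
  have e1 : lamR * ((1 + 1 / 10000) * (JJ + 1 / 10000)) =
      lamR * JJ + lamR * (1 / 10000 * JJ + 1 / 10000 + 1 / 10000 * (1 / 10000)) := by ring
  have e2 : (Real.log 3 - 1 / 10000) / 0.553 = Real.log 3 / 0.553 - 1 / 10000 / 0.553 := by ring
  rw [e1, e2]
  norm_num at *
  linarith

theorem WTS (h1 : MPS_stmt) (h2 : NUM_stmt) (h3 : WTA_stmt) (h4 : WTB_stmt) (h5 : WTC_stmt) :
    WTS_stmt := by
  clear h1
  refine ⟨0.007, by norm_num, fun η hη hη' => ?_⟩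
  obtain ⟨A, hA1, hA2, hA⟩ := WTS_wts η hη hη'
  obtain ⟨X₁, hX₁, hW⟩ := hA (1 / 10000) (by norm_num)
  obtain ⟨X₂, hC⟩ := h5 (1 / 10000) (by norm_num)
  refine ⟨max X₁ X₂, fun X hX => ?_⟩
  have hXa : X₁ ≤ X := (le_max_left _ _).trans hX
  have hXb : X₂ ≤ X := (le_max_right _ _).trans hX
  have hX1 : 1 < X := by linarith
  have hX0 : 0 < X := by linarith
  have hlX : 0 < Real.log X := Real.log_pos hX1
  have hmono : ∀ s t : ℝ, s ≤ t → X ^ s ≤ X ^ t := fun s t hst =>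
    Real.rpow_le_rpow_of_exponent_le hX1.le hst
  have hz47 : X ^ (0.13825 : ℝ) ≤ X ^ (0.47 : ℝ) := hmono _ _ (by norm_num)
  -- the weights
  obtain ⟨l₁, hl₁⟩ := (hW X hXa (X ^ (0.41475 : ℝ)) (hmono _ _ (by norm_num))
    (hmono _ _ (by norm_num))).1
  have e1 : (X ^ (0.41475 : ℝ)) ^ (1 / 3 : ℝ) = X ^ (0.13825 : ℝ) := by
    rw [← Real.rpow_mul hX0.le]; norm_num
  rw [e1] at hl₁
  obtain ⟨l₀, hl₀⟩ := (hW X hXa (X ^ (0.553 : ℝ)) (hmono _ _ (by norm_num)) le_rfl).2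
  have e0 : (X ^ (0.553 : ℝ)) ^ (1 / 4 : ℝ) = X ^ (0.13825 : ℝ) := by
    rw [← Real.rpow_mul hX0.le]; norm_num
  rw [e0] at hl₀
  have hex : ∀ q : ℕ, ∃ l : Finset ℕ → ℝ, X ^ (0.13825 : ℝ) < (q : ℝ) →
      (q : ℝ) ≤ X ^ (0.47 : ℝ) →
      WTS_Up X η A (1 / 10000) (Dq X q) ((Dq X q) ^ (1 / 3 : ℝ)) l := by
    intro q
    by_cases hq : X ^ (0.13825 : ℝ) < (q : ℝ) ∧ (q : ℝ) ≤ X ^ (0.47 : ℝ)
    · obtain ⟨hD1, hD2⟩ := WTS_Dq X hX1 q hq.1 hq.2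
      obtain ⟨l, hl⟩ := (hW X hXa (Dq X q) hD1 (hD2.trans (hmono _ _ (by norm_num)))).1
      exact ⟨l, fun _ _ => hl⟩
    · exact ⟨0, fun a b => absurd ⟨a, b⟩ hq⟩
  choose l hl using hex
  have hzq : ∀ q : ℕ, X ^ (0.13825 : ℝ) < (q : ℝ) → (q : ℝ) ≤ X ^ (0.47 : ℝ) →
      (Dq X q) ^ (1 / 3 : ℝ) ≤ X ^ (0.13825 : ℝ) := by
    intro q a b
    obtain ⟨hD1, hD2⟩ := WTS_Dq X hX1 q a b
    rw [← e1]
    exact Real.rpow_le_rpow ((Real.rpow_nonneg hX0.le _).trans hD1) hD2 (by norm_num)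
  obtain ⟨hU3, hV3⟩ := h4 X η l hX1 hη (by linarith) (fun q a b K hK =>
    ((hl q a b).su K hK).trans (WTS_PPmono _ _ _ (hzq q a b)))
  have hQl2 : ∀ q ∈ Ql X η, 2 ≤ q := fun q hq => (WTS_Ql2 X η q hq).two_le
  -- the functions
  have hU1 : ∀ T : Finset ℕ, 0 ≤ U l₁ T ∧ (T ∩ Pool.Agent.RLS.PP (X ^ η) (X ^ (0.13825 : ℝ)) = ∅ →
      U l₁ T = 1) := fun T => WTS_Up_U X η A _ _ _ l₁ hl₁ h3 hX1.le hz47 T
  have hU0 : ∀ T : Finset ℕ, U l₀ T ≤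
      if T ∩ Pool.Agent.RLS.PP (X ^ η) (X ^ (0.13825 : ℝ)) = ∅ then 1 else 0 :=
    fun T => WTS_Lo_U X η A _ _ _ l₀ hl₀ h3 hX1.le hz47 T
  have hUq : ∀ q : ℕ, X ^ (0.13825 : ℝ) < (q : ℝ) → (q : ℝ) ≤ X ^ (0.47 : ℝ) → ∀ T : Finset ℕ,
      0 ≤ U (l q) T ∧ (T ∩ Pool.Agent.RLS.PP (X ^ η) (X ^ (0.13825 : ℝ)) = ∅ → U (l q) T = 1) := by
    intro q a b T
    obtain ⟨c1, c2⟩ := WTS_Up_U X η A _ _ _ (l q) (hl q a b) h3 hX1.le ((hzq q a b).trans hz47) T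
    refine ⟨c1, fun h => c2 ?_⟩
    rw [← subset_empty, ← h]
    exact inter_subset_inter_left (WTS_PPmono _ _ _ (hzq q a b))
  have hU3nn : ∀ T ⊆ Ql X η, 0 ≤ U (x3 X l) T := by
    intro T hT
    rw [hU3 T hT]
    refine sum_nonneg fun q hq => ?_
    rw [mem_filter] at hq
    have hq47 := WTS_Qlle X η hX0.le q (hT hq.1)
    exact mul_nonneg (WTS_w01 X hX1 q (WTS_Ql2 X η q (hT hq.1)).one_le hq47).1
      (hUq q hq.2 hq47 T).1
  have hU2nn : ∀ T : Finset ℕ, 0 ≤ U l₁ T - U l₀ T := by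
    intro T
    have a := hU1 T
    have b := hU0 T
    split_ifs at b with h
    · have := a.2 h
      linarith
    · linarith [a.1]
  -- the main terms
  have hV1nn : 0 ≤ Vx (Ql X η) l₁ := WTS_nn _ hQl2 _ fun T _ => (hU1 T).1
  have hV2nn : 0 ≤ Vx (Ql X η) (fun K => l₁ K - l₀ K) := by
    refine WTS_nn _ hQl2 _ fun T _ => ?_
    rw [WTS_Usub]
    exact hU2nn T
  have hV3nn : 0 ≤ Vx (Ql X η) (x3 X l) := WTS_nn _ hQl2 _ hU3nn
  have hV2 := WTS_Vsub (Ql X η) l₁ l₀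
  have hV1 : Vx (Ql X η) l₁ ≤ A * (η / 0.41475) * (1 + 1 / 10000) := by
    have h := WTS_Up_V X η A _ _ _ l₁ hl₁ h3 hX1.le hz47
    rw [Real.log_rpow hX0, Real.log_rpow hX0, mul_div_mul_right _ _ hlX.ne'] at h
    exact h
  have hV0 : A * (η / 0.553) * (Real.log 3 - 1 / 10000) ≤ Vx (Ql X η) l₀ := by
    have h := WTS_Lo_V X η A _ _ _ l₀ hl₀ h3 hX1.le hz47
    rw [Real.log_rpow hX0, Real.log_rpow hX0, mul_div_mul_right _ _ hlX.ne'] at h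
    exact h
  have hlog3 : 1 < Real.log 3 := by
    rw [Real.lt_log_iff_exp_lt (by norm_num)]
    exact Real.exp_one_lt_d9.trans (by norm_num)
  have hV0nn : 0 ≤ Vx (Ql X η) l₀ := by
    refine le_trans ?_ hV0
    have : 0 ≤ Real.log 3 - 1 / 10000 := by linarith
    positivity
  have hV3' : Vx (Ql X η) (x3 X l) ≤ A * η * (1 + 1 / 10000) * (JJ + 1 / 10000) := by
    have h6 : Vx (Ql X η) (x3 X l) ≤ A * η * (1 + 1 / 10000) *
        ∑ q ∈ (Ql X η).filter (fun q : ℕ => X ^ (0.13825 : ℝ) < (q : ℝ)),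
          (1 - Real.log q / (0.47 * Real.log X)) / q * (Real.log X / Real.log (Dq X q)) := by
      rw [hV3, mul_sum]
      refine sum_le_sum fun q hq => ?_
      rw [mem_filter] at hq
      have hq47 := WTS_Qlle X η hX0.le q hq.1
      have hw := (WTS_w01 X hX1 q (WTS_Ql2 X η q hq.1).one_le hq47).1
      have h := WTS_Up_V X η A _ _ _ (l q) (hl q hq.2 hq47) h3 hX1.le
        ((hzq q hq.2 hq47).trans hz47)
      rw [Real.log_rpow hX0] at h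
      have h7 : (1 - Real.log q / (0.47 * Real.log X)) / q * Vx (Ql X η) (l q) ≤
          (1 - Real.log q / (0.47 * Real.log X)) / q *
            (A * (η * Real.log X / Real.log (Dq X q)) * (1 + 1 / 10000)) :=
        mul_le_mul_of_nonneg_left h (div_nonneg hw (Nat.cast_nonneg _))
      refine h7.trans (le_of_eq ?_)
      ring
    refine h6.trans ?_
    exact mul_le_mul_of_nonneg_left (hC X hXb η hη (by linarith)) (by positivity)
  obtain ⟨hla0, hla1⟩ := WTS_lamR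
  have hJ := h2.2
  refine ⟨l₁, fun K => l₁ K - l₀ K, x3 X l, ?_, ?_, ?_, ⟨hV1nn, ?_⟩, ⟨hV2nn, ?_⟩, ⟨hV3nn, ?_⟩, ?_, ?_⟩
  · refine ⟨fun K => (hl₁.bd K).trans (by norm_num), fun K hK => ?_, fun K hK => ?_, fun T _ => (hU1 T).1⟩
    · have h := WTS_one X η hX1 h3 A _ l₁ hl₁ K hK
      exact ⟨h.1, h.2.trans (hmono _ _ (by norm_num))⟩
    · right
      exact (WTS_one X η hX1 h3 A _ l₁ hl₁ K hK).2.trans (hmono _ _ (by norm_num))
  · refine ⟨fun K => ?_, fun K hK => ?_, fun K hK => ?_, fun T _ => ?_⟩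
    · have a := hl₁.bd K
      have b := hl₀.bd K
      have c := abs_sub (l₁ K) (l₀ K)
      show |l₁ K - l₀ K| ≤ 2
      linarith
    · by_cases h0 : l₀ K = 0
      · have h1 : l₁ K ≠ 0 := fun h => hK (by simp only [h, h0, sub_zero])
        have h := WTS_one X η hX1 h3 A _ l₁ hl₁ K h1
        exact ⟨h.1, h.2.trans (hmono _ _ (by norm_num))⟩
      · exact (WTS_zero X η hX1 h3 A _ l₀ hl₀ K h0).1
    · by_cases h0 : l₀ K = 0
      · have h1 : l₁ K ≠ 0 := fun h => hK (by simp only [h, h0, sub_zero])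
        right
        exact (WTS_one X η hX1 h3 A _ l₁ hl₁ K h1).2.trans (hmono _ _ (by norm_num))
      · left
        exact (WTS_zero X η hX1 h3 A _ l₀ hl₀ K h0).2
    · rw [WTS_Usub]
      exact hU2nn T
  · refine ⟨fun K => ?_, fun K hK => ?_, fun K hK => ?_, hU3nn⟩
    · by_cases h0 : x3 X l K = 0
      · rw [h0, abs_zero]; norm_num
      · exact (WTS_three X η hX1 hη' h3 A _ l hl hzq K h0).1
    · exact (WTS_three X η hX1 hη' h3 A _ l hl hzq K hK).2.1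
    · exact (WTS_three X η hX1 hη' h3 A _ l hl hzq K hK).2.2
  · refine hV1.trans ?_
    have h7 : A * (η / 0.41475) * (1 + 1 / 10000) ≤ 4 * (η / 0.41475) * (1 + 1 / 10000) := by
      have : 0 ≤ η / 0.41475 := by positivity
      nlinarith
    refine h7.trans ?_
    have h8 : (4 : ℝ) * (η / 0.41475) * (1 + 1 / 10000) = η * (4 / 0.41475 * (1 + 1 / 10000)) := by
      ring
    rw [h8, mul_comm (20 : ℝ)]
    exact mul_le_mul_of_nonneg_left (by norm_num) hη.le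
  · rw [hV2]
    have h7 : A * (η / 0.41475) * (1 + 1 / 10000) ≤ 4 * (η / 0.41475) * (1 + 1 / 10000) := by
      have : 0 ≤ η / 0.41475 := by positivity
      nlinarith
    have h8 : (4 : ℝ) * (η / 0.41475) * (1 + 1 / 10000) = η * (4 / 0.41475 * (1 + 1 / 10000)) := by
      ring
    have h9 : η * (4 / 0.41475 * (1 + 1 / 10000)) ≤ η * 20 :=
      mul_le_mul_of_nonneg_left (by norm_num) hη.le
    linarith
  · refine hV3'.trans ?_
    have h7 : A * η * (1 + 1 / 10000) * (JJ + 1 / 10000) ≤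
        4 * η * (1 + 1 / 10000) * (2 + 1 / 10000) := by
      refine mul_le_mul ?_ (by linarith [hJ.2]) (by linarith [hJ.1]) (by positivity)
      exact mul_le_mul_of_nonneg_right (mul_le_mul_of_nonneg_right hA2 hη.le) (by norm_num)
    linarith
  · rw [hV2]
    have h7 : lamR * Vx (Ql X η) (x3 X l) ≤ lamR * (A * η * (1 + 1 / 10000) * (JJ + 1 / 10000)) :=
      mul_le_mul_of_nonneg_left hV3' hla0.le
    have h8 := WTS_num h2
    have h9 : A * η * 0.009 ≤ A * η * ((Real.log 3 - 1 / 10000) / 0.553 -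
        lamR * ((1 + 1 / 10000) * (JJ + 1 / 10000))) :=
      mul_le_mul_of_nonneg_left h8 (by positivity)
    have h10 : A * η * ((Real.log 3 - 1 / 10000) / 0.553 -
        lamR * ((1 + 1 / 10000) * (JJ + 1 / 10000))) = A * (η / 0.553) * (Real.log 3 - 1 / 10000) -
        lamR * (A * η * (1 + 1 / 10000) * (JJ + 1 / 10000)) := by ring
    have h11 : 3 * η * 0.009 ≤ A * η * 0.009 :=
      mul_le_mul_of_nonneg_right (mul_le_mul_of_nonneg_right hA1 hη.le) (by norm_num)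
    have h12 : 0.02 * η ≤ 3 * η * 0.009 := by
      rw [mul_comm (0.02 : ℝ), mul_comm (3 : ℝ), mul_assoc]
      exact mul_le_mul_of_nonneg_left (by norm_num) hη.le
    linarith
  · intro T hT
    rw [WTS_Usub, hU3 T hT]
    split_ifs with hex
    · obtain ⟨l', hl', hle⟩ := hex
      have hmem : l' ∈ Pool.Agent.RLS.PP (X ^ η) (X ^ (0.13825 : ℝ)) :=
        (h3 X η _ hX1.le hz47).2.1 l' (hT hl') hle
      have hne : T ∩ Pool.Agent.RLS.PP (X ^ η) (X ^ (0.13825 : ℝ)) ≠ ∅ :=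
        ne_empty_of_mem (mem_inter.2 ⟨hl', hmem⟩)
      have a := hU0 T
      rw [if_neg hne] at a
      have b := hU3nn T hT
      rw [hU3 T hT] at b
      have c := mul_nonneg hla0.le b
      linarith
    · push Not at hex
      have hem : T ∩ Pool.Agent.RLS.PP (X ^ η) (X ^ (0.13825 : ℝ)) = ∅ := by
        rw [eq_empty_iff_forall_notMem]
        intro x hx
        rw [mem_inter] at hx
        have a := hex x hx.1
        have b := WTS_PPle _ _ (Real.rpow_nonneg hX0.le _) x hx.2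
        linarith
      have a := hU0 T
      rw [if_pos hem] at a
      have hfil : T.filter (fun q : ℕ => X ^ (0.13825 : ℝ) < (q : ℝ)) = T :=
        filter_true_of_mem hex
      rw [hfil]
      have hs : ∑ q ∈ T, (1 - Real.log q / (0.47 * Real.log X)) * U (l q) T =
          ∑ q ∈ T, (1 - Real.log q / (0.47 * Real.log X)) := by
        refine sum_congr rfl fun q hq => ?_
        rw [(hUq q (hex q hq) (WTS_Qlle X η hX0.le q (hT hq)) T).2 hem, mul_one]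
      rw [hs]
      linarith

end Pool.Agent.PT
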